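import Pool.Agent.H35.GLB.UDb

/-!
# Board glb_modules, module UD: dual unfolding
-/

set_option autoImplicit false

open NumberField NumberField.InfinitePlace NumberField.Units
  NumberField.Units.dirichletUnitTheorem MeasureTheory Set Filter Complex
open scoped nonZeroDivisors ENNReal

namespace Pool.Agent.H35.GLB

open Pool.Agent.H25.HK Pool.Agent.H23.LB Pool.Agent.H23.LC
open Pool.Agent.H28.RC (Rep ft idl)

section
open scoped Classical

/-- (UD) dual unfolding. -/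
theorem pf_UD (hAN : U_AN) (hAG : U_AG) (hDC : U_DC) (hPU : T_PU) (hSM : U_SM) : U_UD := by
  intro K _ _ f hf D χ δ Y t b hδ hn hY
  have hfin1 : (1 : ℝ) ≤ Module.finrank ℚ K := by
    have : 1 ≤ Module.finrank ℚ K := Module.finrank_pos
    exact_mod_cast this
  have hδ8 : δ ≤ 1 / 8 := by nlinarith
  have hfM : ∀ c, (f : FI K) * D.M c ≠ 0 := fun c => by
    refine mul_ne_zero ?_ (D.reps.1 c)
    rwa [Ne, FractionalIdeal.coeIdeal_eq_zero]
  have hL : ∀ c, du K ((f : FI K) * D.M c) ≠ 0 := fun c =>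
    (Pool.Agent.H20.HKI.b_DU K _ (hfM c)).1
  have hreps : Reps K (fun c => du K ((f : FI K) * D.M c)) :=
    (Pool.Agent.H65.GLA.pf_RR K D.ι _ ((Pool.Agent.H65.GLA.pf_RR K D.ι _ D.reps).1 f hf)).2.1
  set β : Ideal (𝓞 K) → ℂ := fun J => b J * (((Real.sqrt (Nf K f) : ℝ) : ℂ) * cd D χ J) *
    (Ideal.absNorm J : ℂ) ^ (-(t * I : ℂ)) with hβ
  set γ : Ideal (𝓞 K) → ℝ≥0∞ := fun J =>
    ‖b J * (((Real.sqrt (Nf K f) : ℝ) : ℂ) * cd D χ J)‖ₑ * volume (An K) with hγ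
  have hc : ∀ c : D.ι, ∑ r ∈ D.X c, cg χ (D.M c) r *
      ∫ p in Fd K ×ˢ (univ : Set ℝ) ×ˢ An K, ec K χ.ν p.1 * cexp (t * p.2.1 * I) *
        (ek χ.k p.2.2 * Sd δ Y b (du K ((f : FI K) * D.M c)) r p.2.1 p.1 p.2.2) =
      (torsionOrder K : ℂ) * (∑' J : {J : Ideal (𝓞 K) // Pri K (du K ((f : FI K) * D.M c)) J},
        if Y ≤ (Ideal.absNorm J.1 : ℝ) ∧ (Ideal.absNorm J.1 : ℝ) < 2 * Y then β J else 0) *
        Uh K δ (-χ.k) (-χ.ν) t := by
    intro c
    set L := du K ((f : FI K) * D.M c) with hLd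
    have h1 : ∀ r ∈ D.X c, cg χ (D.M c) r *
        ∫ p in Fd K ×ˢ (univ : Set ℝ) ×ˢ An K, ec K χ.ν p.1 * cexp (t * p.2.1 * I) *
          (ek χ.k p.2.2 * Sd δ Y b L r p.2.1 p.1 p.2.2) =
        ∫ p in Fd K ×ˢ (univ : Set ℝ) ×ˢ An K, cg χ (D.M c) r *
          (ec K χ.ν p.1 * cexp (t * p.2.1 * I) *
          (ek χ.k p.2.2 * Sd δ Y b L r p.2.1 p.1 p.2.2)) := fun r _ => by
      rw [← integral_const_mul]
    rw [Finset.sum_congr rfl h1, ← integral_finsetSum _ (fun r _ =>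
      (Sd_int hPU hSM χ hf L (hL c) r b δ Y t hδ hn hY).const_mul _)]
    have h2 : ∫ p in Fd K ×ˢ (univ : Set ℝ) ×ˢ An K, ∑ r ∈ D.X c, cg χ (D.M c) r *
          (ec K χ.ν p.1 * cexp (t * p.2.1 * I) *
          (ek χ.k p.2.2 * Sd δ Y b L r p.2.1 p.1 p.2.2)) =
        ∫ p in Fd K ×ˢ (univ : Set ℝ) ×ˢ An K, ∑' x : {x : K // Bl Y L x},
          Fd' D χ c b δ t x p := by
      refine integral_congr_ae (ae_of_all _ fun p => ?_)
      exact sum_res D χ c (hL c) b δ Y t (hδ8.trans (by norm_num)) p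
    rw [h2, Uh_eq]
    refine class_unf (-1) (Or.inr rfl) L (hL c) Y (Pk K δ (-χ.k) (-χ.ν) t)
      (Pk_meas K hPU _ _ _ _) (Pk_int K hPU δ hδ8 _ _ _) (Rk K δ) (Rk_meas K δ)
      (Rk_fin K δ hδ8) (Fd' D χ c b δ t) (Fd_meas hPU D χ c b δ t) β γ ?_ ?_ ?_
    · intro J
      exact ENNReal.mul_ne_top enorm_ne_top (An_fin K).ne
    · intro x hx hx0 z τ
      have h3 := (ch_ag hAG hDC hPU hf D χ c x hx hx0).1
      have h4 := norm_idl K L (hL c) x hx hx0
      have h5 := yM_zl K L (hL c) x hx hx0 τ (-z)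
      have h6 := cpow_norm K (idl K L x) h4.1 t τ
      have h7 := ec_zl_neg K hPU χ.ν χ.norm_zero x hx0 z
      have h8 : ∀ θ : InfinitePlace K → ℝ, Fd' D χ c b δ t x (z, τ, θ) =
          (ec K χ.ν z * cexp (t * τ * I) * (b (idl K L x) * ch D χ c x)) *
          (ek χ.k θ * (if Bd δ x (yM K L τ (-z)) θ then (1 : ℂ) else 0)) := by
        intro θ
        unfold Fd'
        by_cases h : Bd δ x (yM K L τ (-z)) θ
        · rw [if_pos h, if_pos h]
          ring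
        · rw [if_neg h, if_neg h]
          ring
      simp only [h8]
      rw [integral_const_mul, ang_d K hAN δ χ.k _ x hx0, h5]
      unfold Pk
      rw [h7, neg_one_smul]
      simp only [hβ]
      have h9 : b (idl K L x) * (((Real.sqrt (Nf K f) : ℝ) : ℂ) * cd D χ (idl K L x)) *
          (Ideal.absNorm (idl K L x) : ℂ) ^ (-(t * I : ℂ)) * (ec K χ.ν z * ph χ.ν x *
          cexp (t * ((τ + Real.log (Ideal.absNorm (idl K L x)) : ℝ) : ℂ) * I) *
          Hk K δ (-χ.k) (yc K (τ + Real.log (Ideal.absNorm (idl K L x))) (-z + zl K x))) =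
          ((Ideal.absNorm (idl K L x) : ℂ) ^ (-(t * I : ℂ)) *
          cexp (t * ((τ + Real.log (Ideal.absNorm (idl K L x)) : ℝ) : ℂ) * I)) *
          (b (idl K L x) * (((Real.sqrt (Nf K f) : ℝ) : ℂ) * cd D χ (idl K L x) * ph χ.ν x) *
          (ec K χ.ν z * Hk K δ (-χ.k)
            (yc K (τ + Real.log (Ideal.absNorm (idl K L x))) (-z + zl K x)))) := by ring
      rw [h9, h6, ← h3]
      ring
    · intro x hx hx0 z τ
      have h3 := (ch_ag hAG hDC hPU hf D χ c x hx hx0).2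
      have h5 := yM_zl K L (hL c) x hx hx0 τ (-z)
      have h6 : ∀ θ : InfinitePlace K → ℝ, ‖Fd' D χ c b δ t x (z, τ, θ)‖ₑ ≤
          ‖b (idl K L x) * (((Real.sqrt (Nf K f) : ℝ) : ℂ) * cd D χ (idl K L x))‖ₑ *
          Rk K δ ((-1 : ℝ) • z + zl K x, τ + Real.log (Ideal.absNorm (idl K L x))) := by
        intro θ
        unfold Fd'
        rw [enorm_mul, enorm_mul, enorm_mul, ec_enorm hPU, exp_enorm, ek_enorm, one_mul, one_mul,
          one_mul]
        by_cases h : Bd δ x (yM K L τ (-z)) θ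
        · rw [if_pos h, enorm_mul, h3, ← enorm_mul]
          have h7 := Bd_B0 K δ x _ _ hx0 h
          rw [h5] at h7
          unfold Rk
          rw [neg_one_smul, if_pos h7, mul_one]
        · rw [if_neg h, enorm_zero]
          exact bot_le
      refine (lintegral_mono h6).trans (le_of_eq ?_)
      rw [lintegral_const, Measure.restrict_apply_univ]
      simp only [hγ]
      ring
  rw [Finset.sum_congr rfl fun c _ => hc c]
  have h10 := sum_classes K (fun c => du K ((f : FI K) * D.M c)) hreps β Y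
  have h11 : ∑ c, (torsionOrder K : ℂ) *
      (∑' J : {J : Ideal (𝓞 K) // Pri K (du K ((f : FI K) * D.M c)) J},
        if Y ≤ (Ideal.absNorm J.1 : ℝ) ∧ (Ideal.absNorm J.1 : ℝ) < 2 * Y then β J else 0) *
        Uh K δ (-χ.k) (-χ.ν) t =
      (torsionOrder K : ℂ) * (∑ c,
      (∑' J : {J : Ideal (𝓞 K) // Pri K (du K ((f : FI K) * D.M c)) J},
        if Y ≤ (Ideal.absNorm J.1 : ℝ) ∧ (Ideal.absNorm J.1 : ℝ) < 2 * Y then β J else 0)) *
        Uh K δ (-χ.k) (-χ.ν) t := by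
    rw [Finset.mul_sum, Finset.sum_mul]
  rw [h11, h10]
  have h12 : ∑' J : NZI K, (if Y ≤ (Ideal.absNorm J.1 : ℝ) ∧ (Ideal.absNorm J.1 : ℝ) < 2 * Y
      then β J.1 else 0) = ((Real.sqrt (Nf K f) : ℝ) : ℂ) * bs (cd D χ) b Y t := by
    unfold bs
    rw [← tsum_mul_left]
    refine tsum_congr fun J => ?_
    by_cases h : Y ≤ (Ideal.absNorm J.1 : ℝ) ∧ (Ideal.absNorm J.1 : ℝ) < 2 * Y
    · rw [if_pos h, if_pos h]
      simp only [hβ]
      ring
    · rw [if_neg h, if_neg h, mul_zero]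
  rw [h12]
  ring

end

end Pool.Agent.H35.GLB
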