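import Pool.Agent.H35.GLB.CLS

/-!
# Board glb_modules: the kernels of the thin region
-/

set_option autoImplicit false

open NumberField NumberField.InfinitePlace NumberField.Units
  NumberField.Units.dirichletUnitTheorem MeasureTheory Set Filter Complex
open scoped nonZeroDivisors ENNReal

namespace Pool.Agent.H35.GLB

open Pool.Agent.H25.HK Pool.Agent.H23.LB Pool.Agent.H23.LC
open Pool.Agent.H28.RC (Rep ft idl)

section
open scoped Classical

variable (K : Type) [Field K] [NumberField K]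

/-- the integral over the angles -/
noncomputable def Hk (δ : ℝ) (k : InfinitePlace K → ℤ) (y : InfinitePlace K → ℝ) : ℂ :=
  ∫ θ in An K, ek k θ * if Bp δ (1 : K) y θ then 1 else 0

/-- the kernel -/
noncomputable def Pk (δ : ℝ) (k : InfinitePlace K → ℤ) (ν : InfinitePlace K → ℝ) (t : ℝ)
    (p : logSpace K × ℝ) : ℂ :=
  ec K ν p.1 * cexp (t * p.2 * I) * Hk K δ k (yc K p.2 p.1)

theorem Uh_eq (δ : ℝ) (k : InfinitePlace K → ℤ) (ν : InfinitePlace K → ℝ) (t : ℝ) :
    Uh K δ k ν t = ∫ p, Pk K δ k ν t p := rfl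

theorem an_norm (v : InfinitePlace K) (θ : ℝ) : ‖an v θ‖ = 1 := by
  unfold an
  split_ifs
  · simp
  · simp
  · exact Complex.norm_exp_ofReal_mul_I θ

theorem an_meas (v : InfinitePlace K) : Measurable (an v) := by
  unfold an
  split_ifs
  · exact Measurable.ite measurableSet_Iio measurable_const measurable_const
  · fun_prop

theorem ek_norm (k : InfinitePlace K → ℤ) (θ : InfinitePlace K → ℝ) : ‖ek k θ‖ = 1 := by
  unfold ek
  rw [norm_prod]
  refine Finset.prod_eq_one fun v _ => ?_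
  rw [norm_zpow, an_norm, one_zpow]

theorem ek_meas (k : InfinitePlace K → ℤ) : Measurable (ek (K := K) k) := by
  unfold ek
  refine Finset.measurable_prod _ fun v _ => ?_
  have h1 : Measurable (fun θ : InfinitePlace K → ℝ => an v (θ v)) :=
    (an_meas K v).comp (measurable_pi_apply v)
  exact h1.pow_const _

theorem Bp_meas (δ : ℝ) (x : K) :
    MeasurableSet {q : (InfinitePlace K → ℝ) × (InfinitePlace K → ℝ) | Bp δ x q.1 q.2} := by
  have h1 : {q : (InfinitePlace K → ℝ) × (InfinitePlace K → ℝ) | Bp δ x q.1 q.2} =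
      ⋂ v : InfinitePlace K, {q | ‖v.embedding x * ((Real.exp (q.1 v / 2) : ℝ) : ℂ) *
        an v (q.2 v) - 1‖ ≤ δ} := by
    ext q
    simp only [mem_iInter]
    rfl
  rw [h1]
  refine MeasurableSet.iInter fun v => ?_
  have h2 : Measurable (fun q : (InfinitePlace K → ℝ) × (InfinitePlace K → ℝ) => an v (q.2 v)) :=
    (an_meas K v).comp ((measurable_pi_apply v).comp measurable_snd)
  refine measurableSet_le ?_ measurable_const
  fun_prop

theorem Bd_meas (δ : ℝ) (x : K) :
    MeasurableSet {q : (InfinitePlace K → ℝ) × (InfinitePlace K → ℝ) | Bd δ x q.1 q.2} := by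
  have h1 : {q : (InfinitePlace K → ℝ) × (InfinitePlace K → ℝ) | Bd δ x q.1 q.2} =
      ⋂ v : InfinitePlace K, {q | ‖v.embedding x * ((Real.exp (q.1 v / 2) : ℝ) : ℂ) *
        (starRingEnd ℂ) (an v (q.2 v)) - 1‖ ≤ δ} := by
    ext q
    simp only [mem_iInter]
    rfl
  rw [h1]
  refine MeasurableSet.iInter fun v => ?_
  have h2 : Measurable (fun q : (InfinitePlace K → ℝ) × (InfinitePlace K → ℝ) => an v (q.2 v)) :=
    (an_meas K v).comp ((measurable_pi_apply v).comp measurable_snd)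
  have h3 : Measurable (fun q : (InfinitePlace K → ℝ) × (InfinitePlace K → ℝ) =>
      (starRingEnd ℂ) (an v (q.2 v))) := Complex.continuous_conj.measurable.comp h2
  refine measurableSet_le ?_ measurable_const
  fun_prop

theorem Bp_meas' (δ : ℝ) (x : K) (y : InfinitePlace K → ℝ) :
    MeasurableSet {θ : InfinitePlace K → ℝ | Bp δ x y θ} := by
  have h1 : Measurable (fun θ : InfinitePlace K → ℝ => (y, θ)) := by fun_prop
  exact h1 (Bp_meas K δ x)

theorem Bd_meas' (δ : ℝ) (x : K) (y : InfinitePlace K → ℝ) :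
    MeasurableSet {θ : InfinitePlace K → ℝ | Bd δ x y θ} := by
  have h1 : Measurable (fun θ : InfinitePlace K → ℝ => (y, θ)) := by fun_prop
  exact h1 (Bd_meas K δ x)

theorem An_fin : (volume : Measure (InfinitePlace K → ℝ)) (An K) < ∞ := by
  unfold An
  rw [volume_pi_pi]
  refine ENNReal.prod_lt_top fun v _ => ?_
  rw [Real.volume_Icc]
  exact ENNReal.ofReal_lt_top

instance : IsFiniteMeasure ((volume : Measure (InfinitePlace K → ℝ)).restrict (An K)) :=
  ⟨by rw [Measure.restrict_apply_univ]; exact An_fin K⟩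

theorem Hk_meas (δ : ℝ) (k : InfinitePlace K → ℤ) : Measurable (Hk K δ k) := by
  have h1 : Measurable (fun q : (InfinitePlace K → ℝ) × (InfinitePlace K → ℝ) =>
      ek k q.2 * if Bp δ (1 : K) q.1 q.2 then (1 : ℂ) else 0) :=
    ((ek_meas K k).comp measurable_snd).mul
      (Measurable.ite (Bp_meas K δ 1) measurable_const measurable_const)
  exact h1.stronglyMeasurable.integral_prod_right'.measurable

/-- the region of the absolute values -/
def B0 (δ : ℝ) (y : InfinitePlace K → ℝ) : Prop := ∀ v, |Real.exp (y v / 2) - 1| ≤ δ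

theorem norm_reg (w u : ℂ) (r : ℝ) (δ : ℝ) (hu : ‖u‖ = 1) (hr : ‖w‖ = r)
    (h : ‖w * u - 1‖ ≤ δ) : |r - 1| ≤ δ := by
  have h1 := abs_norm_sub_norm_le (w * u) 1
  rw [norm_mul, hu, mul_one, norm_one, hr] at h1
  exact h1.trans h

theorem Bp_B0 (δ : ℝ) (x : K) (y θ : InfinitePlace K → ℝ) (hx : x ≠ 0) (h : Bp δ x y θ) :
    B0 K δ (fun v => y v + 2 * Real.log (v x)) := by
  intro v
  have h1 : 0 < v x := by
    rw [InfinitePlace.pos_iff]
    exact hx
  refine norm_reg _ (an v (θ v)) _ δ (an_norm K v _) ?_ (h v)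
  rw [norm_mul, Complex.norm_real, Real.norm_of_nonneg (Real.exp_pos _).le,
    InfinitePlace.norm_embedding_eq, add_div, Real.exp_add,
    mul_div_cancel_left₀ _ (two_ne_zero), Real.exp_log h1]
  ring

theorem Bd_B0 (δ : ℝ) (x : K) (y θ : InfinitePlace K → ℝ) (hx : x ≠ 0) (h : Bd δ x y θ) :
    B0 K δ (fun v => y v + 2 * Real.log (v x)) := by
  intro v
  have h1 : 0 < v x := by
    rw [InfinitePlace.pos_iff]
    exact hx
  refine norm_reg _ ((starRingEnd ℂ) (an v (θ v))) _ δ
    (by rw [RCLike.norm_conj]; exact an_norm K v _) ?_ (h v)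
  rw [norm_mul, Complex.norm_real, Real.norm_of_nonneg (Real.exp_pos _).le,
    InfinitePlace.norm_embedding_eq, add_div, Real.exp_add,
    mul_div_cancel_left₀ _ (two_ne_zero), Real.exp_log h1]
  ring

/-- the indicator of the region -/
noncomputable def Rk (δ : ℝ) (p : logSpace K × ℝ) : ℝ≥0∞ :=
  if B0 K δ (yc K p.2 p.1) then 1 else 0

theorem yc_cont : Continuous (fun p : logSpace K × ℝ => yc K p.2 p.1) :=
  (Pool.Agent.H20.HKI.b_YC K).2.2.2.2.1.comp (continuous_snd.prodMk continuous_fst)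

theorem B0_meas (δ : ℝ) : MeasurableSet {y : InfinitePlace K → ℝ | B0 K δ y} := by
  have h1 : {y : InfinitePlace K → ℝ | B0 K δ y} =
      ⋂ v : InfinitePlace K, {y | |Real.exp (y v / 2) - 1| ≤ δ} := by
    ext q
    simp only [mem_iInter]
    rfl
  rw [h1]
  refine MeasurableSet.iInter fun v => ?_
  refine measurableSet_le ?_ measurable_const
  fun_prop

theorem Rk_meas (δ : ℝ) : Measurable (Rk K δ) :=
  Measurable.ite ((yc_cont K).measurable (B0_meas K δ)) measurable_const measurable_const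

theorem B0_bd (δ : ℝ) (hδ : δ ≤ 1 / 8) (y : InfinitePlace K → ℝ) (h : B0 K δ y) (v) :
    |y v| ≤ 1 := by
  have h1 := abs_le.1 ((h v).trans hδ)
  have h2 : y v / 2 ≤ 1 / 8 := by
    have := Real.add_one_le_exp (y v / 2)
    linarith [h1.2]
  have h3 : -(1 / 2) ≤ y v / 2 := by
    by_contra h4
    push Not at h4
    have h5 : Real.exp (y v / 2) < Real.exp (-(1 / 2)) := Real.exp_lt_exp.2 h4
    have h6 : Real.exp (-(1 / 2 : ℝ)) ≤ 7 / 8 := by
      have h7 : Real.exp (-(1 / 2 : ℝ)) * Real.exp (1 / 2) = 1 := by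
        rw [← Real.exp_add]; simp
      have h8 := Real.add_one_le_exp (1 / 2 : ℝ)
      have h9 := Real.exp_pos (-(1 / 2 : ℝ))
      nlinarith
    linarith [h1.1]
  exact abs_le.2 ⟨by linarith, by linarith⟩

theorem yc_bd (p : logSpace K × ℝ) (h : ∀ v, |yc K p.2 p.1 v| ≤ 1) :
    p ∈ Icc (fun _ => (-2 : ℝ)) (fun _ => 2) ×ˢ
      Icc (-(Module.finrank ℚ K : ℝ)) (Module.finrank ℚ K) := by
  have hn : (0 : ℝ) < Module.finrank ℚ K := by
    exact_mod_cast Module.finrank_pos
  have h1 := (Pool.Agent.H20.HKI.b_YC K).1 p.2 p.1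
  have h2 : |2 * p.2| ≤ Module.finrank ℚ K := by
    rw [← h1]
    refine (Finset.abs_sum_le_sum_abs _ _).trans ?_
    rw [← sum_mult_eq (K := K), Nat.cast_sum]
    refine Finset.sum_le_sum fun v _ => ?_
    rw [abs_mul, Nat.abs_cast]
    exact mul_le_of_le_one_right (Nat.cast_nonneg _) (h v)
  have h3 := abs_le.1 h2
  refine ⟨?_, ?_, ?_⟩
  · have h4 : ∀ v, |p.1 v| ≤ 2 := by
      intro v
      have h5 := h v.1
      rw [Pool.Agent.H87.HK.yc_ne] at h5
      have h6 : (0 : ℝ) < v.1.mult := Pool.Agent.H87.HK.mult_pos' K v.1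
      have h7 : (v.1.mult : ℝ) ≤ 2 := by
        have : v.1.mult ≤ 2 := by
          unfold InfinitePlace.mult
          split_ifs <;> norm_num
        exact_mod_cast this
      have h8 : |2 * p.2 / Module.finrank ℚ K| ≤ 1 := by
        rw [abs_div, abs_of_pos hn, div_le_one hn]
        exact h2
      have h9 : |2 * p.1 v / (v.1.mult : ℝ)| ≤ 2 := by
        have h10 : 2 * p.1 v / (v.1.mult : ℝ) = (2 * p.2 / Module.finrank ℚ K +
          2 * p.1 v / (v.1.mult : ℝ)) - 2 * p.2 / Module.finrank ℚ K := by ring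
        rw [h10]
        refine (abs_sub _ _).trans ?_
        linarith
      rw [abs_div, abs_of_pos h6, div_le_iff₀ h6, abs_mul, abs_two] at h9
      nlinarith
    exact ⟨fun v => (abs_le.1 (h4 v)).1, fun v => (abs_le.1 (h4 v)).2⟩
  · linarith [h3.1]
  · linarith [h3.2]

theorem Rk_fin (δ : ℝ) (hδ : δ ≤ 1 / 8) : ∫⁻ p, Rk K δ p ≠ ∞ := by
  have h1 : ∫⁻ p, Rk K δ p ≤ ∫⁻ p : logSpace K × ℝ, (Icc (fun _ => (-2 : ℝ)) (fun _ => 2) ×ˢ
      Icc (-(Module.finrank ℚ K : ℝ)) (Module.finrank ℚ K)).indicator 1 p := by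
    refine lintegral_mono fun p => ?_
    unfold Rk
    split_ifs with h
    · rw [indicator_of_mem (yc_bd K p (B0_bd K δ hδ _ h))]
      rfl
    · exact bot_le
  refine ne_top_of_le_ne_top ?_ h1
  rw [lintegral_indicator_one (measurableSet_Icc.prod measurableSet_Icc),
    Measure.volume_eq_prod, Measure.prod_prod]
  exact ENNReal.mul_ne_top isCompact_Icc.measure_lt_top.ne isCompact_Icc.measure_lt_top.ne

theorem Hk_bd (δ : ℝ) (k : InfinitePlace K → ℤ) (y : InfinitePlace K → ℝ) :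
    ‖Hk K δ k y‖ₑ ≤ volume (An K) * if B0 K δ y then 1 else 0 := by
  unfold Hk
  refine (enorm_integral_le_lintegral_enorm _).trans ?_
  by_cases h : B0 K δ y
  · rw [if_pos h, mul_one, ← Measure.restrict_apply_univ, ← lintegral_one]
    refine lintegral_mono fun θ => ?_
    rw [enorm_mul, ← ofReal_norm (ek k θ), ek_norm, ENNReal.ofReal_one, one_mul]
    split_ifs <;> simp
  · rw [if_neg h, mul_zero]
    refine le_of_eq ?_
    rw [lintegral_eq_zero_iff']
    · refine ae_of_all _ fun θ => ?_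
      have h1 : ¬ Bp δ (1 : K) y θ := by
        intro h2
        have h3 := Bp_B0 K δ 1 y θ one_ne_zero h2
        simp only [map_one, Real.log_one, mul_zero, add_zero] at h3
        exact h h3
      simp [h1]
    · have h1 : Measurable (fun θ : (InfinitePlace K → ℝ) =>
          ek k θ * if Bp δ (1 : K) y θ then (1 : ℂ) else 0) :=
        (ek_meas K k).mul (Measurable.ite (Bp_meas' K δ 1 y) measurable_const measurable_const)
      exact h1.enorm.aemeasurable

theorem Pk_meas (hPU : T_PU) (δ : ℝ) (k : InfinitePlace K → ℤ) (ν : InfinitePlace K → ℝ)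
    (t : ℝ) : Measurable (Pk K δ k ν t) := by
  have h1 : Continuous (fun p : logSpace K × ℝ => ec K ν p.1) :=
    ((hPU K).2.2.2.2.1 ν).1.comp continuous_fst
  have h2 : Continuous (fun p : logSpace K × ℝ => cexp (t * p.2 * I)) := by fun_prop
  exact (h1.measurable.mul h2.measurable).mul ((Hk_meas K δ k).comp (yc_cont K).measurable)

theorem Pk_bd (hPU : T_PU) (δ : ℝ) (k : InfinitePlace K → ℤ) (ν : InfinitePlace K → ℝ)
    (t : ℝ) (p : logSpace K × ℝ) : ‖Pk K δ k ν t p‖ₑ ≤ volume (An K) * Rk K δ p := by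
  unfold Pk
  have h1 : ‖ec K ν p.1‖ₑ = 1 := by
    rw [← ofReal_norm, ((hPU K).2.2.2.2.1 ν).2, ENNReal.ofReal_one]
  have h2 : ‖cexp (t * p.2 * I)‖ₑ = 1 := by
    have : (t : ℂ) * p.2 * I = ((t * p.2 : ℝ) : ℂ) * I := by push_cast; ring
    rw [← ofReal_norm, this, Complex.norm_exp_ofReal_mul_I, ENNReal.ofReal_one]
  rw [enorm_mul, enorm_mul, h1, h2, one_mul, one_mul]
  exact Hk_bd K δ k _

theorem Pk_int (hPU : T_PU) (δ : ℝ) (hδ : δ ≤ 1 / 8) (k : InfinitePlace K → ℤ)
    (ν : InfinitePlace K → ℝ) (t : ℝ) : Integrable (Pk K δ k ν t) := by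
  refine ⟨(Pk_meas K hPU δ k ν t).aestronglyMeasurable, ?_⟩
  refine lt_of_le_of_lt (lintegral_mono (Pk_bd K hPU δ k ν t)) ?_
  rw [lintegral_const_mul _ (Rk_meas K δ)]
  exact ENNReal.mul_lt_top (An_fin K) (lt_top_iff_ne_top.2 (Rk_fin K δ hδ))

end

end Pool.Agent.H35.GLB
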