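import Pool.Agent.H35.GLB.ANG
import Pool.Agent.H65.GLA.RR

/-!
# Board glb_modules, module UD, part 1
-/

set_option autoImplicit false

open NumberField NumberField.InfinitePlace NumberField.Units
  NumberField.Units.dirichletUnitTheorem MeasureTheory Set Filter Complex
open scoped nonZeroDivisors ENNReal

namespace Pool.Agent.H35.GLB

open Pool.Agent.H25.HK Pool.Agent.H23.LB Pool.Agent.H23.LC
open Pool.Agent.H28.RC (Rep ft idl)

section
open scoped Classical

variable (K : Type) [Field K] [NumberField K]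

theorem pr_add (ν : InfinitePlace K → ℝ) (z z' : logSpace K) :
    pr K ν (z + z') = pr K ν z + pr K ν z' := by
  unfold pr
  rw [← Finset.sum_add_distrib]
  refine Finset.sum_congr rfl fun w _ => ?_
  rw [Pi.add_apply]
  ring

theorem pr_neg (ν : InfinitePlace K → ℝ) (z : logSpace K) : pr K ν (-z) = -pr K ν z := by
  unfold pr
  rw [← Finset.sum_neg_distrib]
  refine Finset.sum_congr rfl fun w _ => ?_
  rw [Pi.neg_apply]
  ring

theorem pr_neg' (ν : InfinitePlace K → ℝ) (z : logSpace K) : pr K (-ν) z = -pr K ν z := by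
  unfold pr
  rw [← Finset.sum_neg_distrib]
  refine Finset.sum_congr rfl fun w _ => ?_
  simp only [Pi.neg_apply]
  ring

theorem pr_zl (hPU : T_PU) (ν : InfinitePlace K → ℝ) (hν : ∑ v, (v.mult : ℝ) * ν v = 0) (x : K)
    (hx : x ≠ 0) : pr K ν (zl K x) = ∑ v, (v.mult : ℝ) * ν v * Real.log (v x) := by
  rw [(hPU K).2.1 ν hν (Real.log (((|Algebra.norm ℚ x| : ℚ) : ℝ))) (zl K x), Finset.sum_div]
  refine Finset.sum_congr rfl fun v _ => ?_
  rw [yc_zl K x hx]
  ring

theorem ec_zl_neg (hPU : T_PU) (ν : InfinitePlace K → ℝ) (hν : ∑ v, (v.mult : ℝ) * ν v = 0)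
    (x : K) (hx : x ≠ 0) (z : logSpace K) :
    ec K (-ν) ((-1 : ℝ) • z + zl K x) = ec K ν z * ph ν x := by
  unfold ec ph
  rw [← Complex.exp_add, pr_neg', pr_add, pr_zl K hPU ν hν x hx, neg_one_smul, pr_neg]
  congr 1
  push_cast
  ring

theorem ec_zl_pos (hPU : T_PU) (ν : InfinitePlace K → ℝ) (hν : ∑ v, (v.mult : ℝ) * ν v = 0)
    (x : K) (hx : x ≠ 0) (z : logSpace K) :
    ec K ν ((1 : ℝ) • z + zl K x) = ec K ν z * (starRingEnd ℂ) (ph ν x) := by
  unfold ec ph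
  rw [← Complex.exp_conj, ← Complex.exp_add, pr_add, pr_zl K hPU ν hν x hx, one_smul, map_mul,
    Complex.conj_ofReal, Complex.conj_I]
  congr 1
  push_cast
  ring

theorem yc_add (τ τ' : ℝ) (z z' : logSpace K) (v : InfinitePlace K) :
    yc K (τ + τ') (z + z') v = yc K τ z v + yc K τ' z' v := by
  by_cases h : v = w₀
  · subst h
    rw [Pool.Agent.H87.HK.yc_w0, Pool.Agent.H87.HK.yc_w0, Pool.Agent.H87.HK.yc_w0]
    simp only [Pi.add_apply, Finset.sum_add_distrib]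
    ring
  · rw [Pool.Agent.H87.HK.yc_ne K _ _ ⟨v, h⟩, Pool.Agent.H87.HK.yc_ne K _ _ ⟨v, h⟩,
      Pool.Agent.H87.HK.yc_ne K _ _ ⟨v, h⟩, Pi.add_apply]
    ring

theorem norm_idl (L : FI K) (hL : L ≠ 0) (x : K) (hx : x ∈ L) (hx0 : x ≠ 0) :
    idl K L x ≠ ⊥ ∧ Real.log (((|Algebra.norm ℚ x| : ℚ) : ℝ)) =
      Real.log (Ideal.absNorm (idl K L x)) + Real.log (FractionalIdeal.absNorm L : ℝ) := by
  have hID := Pool.Agent.H20.HKI.d_ID K L hL
  have h0 : idl K L x ≠ ⊥ := fun h => hx0 ((hID.2.2.2.1 x hx).1 h)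
  refine ⟨h0, ?_⟩
  have h1 := hID.1 x hx
  have h2 := congrArg FractionalIdeal.absNorm h1
  rw [map_mul, FractionalIdeal.coeIdeal_absNorm, FractionalIdeal.absNorm_span_singleton] at h2
  have hL2 : (0 : ℝ) < (FractionalIdeal.absNorm L : ℝ) :=
    (Pool.Agent.H20.HKI.b_DU K L hL).2.2.2.1
  have h3 : ((Ideal.absNorm (idl K L x) : ℕ) : ℝ) ≠ 0 := by
    have : Ideal.absNorm (idl K L x) ≠ 0 := by
      rw [Ne, Ideal.absNorm_eq_zero_iff]
      exact h0
    exact_mod_cast this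
  rw [← Real.log_mul h3 hL2.ne', ← h2]
  push_cast
  rfl

theorem yM_zl (L : FI K) (hL : L ≠ 0) (x : K) (hx : x ∈ L) (hx0 : x ≠ 0) (τ : ℝ)
    (z : logSpace K) : (fun v => yM K L τ z v + 2 * Real.log (v x)) =
      yc K (τ + Real.log (Ideal.absNorm (idl K L x))) (z + zl K x) := by
  funext v
  have h1 := (norm_idl K L hL x hx hx0).2
  have h2 : τ + Real.log (Ideal.absNorm (idl K L x)) =
      (τ - Real.log (FractionalIdeal.absNorm L : ℝ)) +
        Real.log (((|Algebra.norm ℚ x| : ℚ) : ℝ)) := by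
    rw [h1]; ring
  rw [h2, yc_add, yc_zl K x hx0]
  rfl

theorem cpow_norm (J : Ideal (𝓞 K)) (hJ : J ≠ ⊥) (t τ : ℝ) :
    (Ideal.absNorm J : ℂ) ^ (-(t * I : ℂ)) *
      cexp (t * ((τ + Real.log (Ideal.absNorm J) : ℝ) : ℂ) * I) = cexp (t * τ * I) := by
  have h3 : ((Ideal.absNorm J : ℕ) : ℂ) ≠ 0 := by
    have : Ideal.absNorm J ≠ 0 := by
      rw [Ne, Ideal.absNorm_eq_zero_iff]
      exact hJ
    exact_mod_cast this
  rw [Complex.cpow_def_of_ne_zero h3, ← Complex.exp_add, ← Complex.natCast_log]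
  congr 1
  push_cast
  ring

/-- the sum over the classes -/
theorem sum_classes {ι : Type} [Fintype ι] (L : ι → FI K) (hL : Reps K L)
    (g : Ideal (𝓞 K) → ℂ) (Y : ℝ) :
    ∑ c, ∑' J : {J : Ideal (𝓞 K) // Pri K (L c) J},
      (if Y ≤ (Ideal.absNorm J.1 : ℝ) ∧ (Ideal.absNorm J.1 : ℝ) < 2 * Y then g J.1 else 0) =
    ∑' J : NZI K, if Y ≤ (Ideal.absNorm J.1 : ℝ) ∧ (Ideal.absNorm J.1 : ℝ) < 2 * Y
      then g J.1 else 0 := by
  set h : NZI K → ℂ := fun J => if Y ≤ (Ideal.absNorm J.1 : ℝ) ∧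
    (Ideal.absNorm J.1 : ℝ) < 2 * Y then g J.1 else 0 with hh
  have hfin : (Function.support h).Finite := by
    have h3 : {J : Ideal (𝓞 K) | Ideal.absNorm J ≤ ⌊2 * Y⌋₊}.Finite :=
      Ideal.finite_setOfPred_absNorm_le _
    refine (h3.preimage (f := fun J : NZI K => J.1) Subtype.val_injective.injOn).subset ?_
    intro J hJ
    by_contra h4
    refine hJ ?_
    rw [hh]
    simp only
    rw [if_neg]
    rintro ⟨-, h5⟩
    exact h4 (Nat.le_floor h5.le)
  have hs : Summable h := summable_of_hasFiniteSupport hfin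
  let e : (Σ c : ι, {I : Ideal (𝓞 K) // Pri K (L c) I}) ≃ NZI K :=
    Equiv.ofBijective (fun q => ⟨q.2.1, q.2.2.1⟩) (by
      constructor
      · rintro ⟨c, J, hJ⟩ ⟨c', J', hJ'⟩ h
        have h1 : J = J' := by simpa using h
        subst h1
        have h2 : c = c' := (hL.2 J hJ.1).unique hJ hJ'
        subst h2
        rfl
      · rintro ⟨J, hJ⟩
        obtain ⟨c, hc, -⟩ := hL.2 J hJ
        exact ⟨⟨c, J, hc⟩, rfl⟩)
  have h8 : Summable (fun q => h (e q)) := e.summable_iff.2 hs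
  have h9 : ∑' q, h (e q) = ∑' c, ∑' J, h (e ⟨c, J⟩) := h8.tsum_sigma
  change _ = ∑' J, h J
  rw [← e.tsum_eq h, h9, tsum_fintype]
  rfl

/-- only finitely many points lie in a bounded region -/
theorem fin_pts (L : FI K) (hL : L ≠ 0) (Y : ℝ) (y : InfinitePlace K → ℝ) :
    {x : {x : K // Bl Y L x} | ∀ v, v x.1 * Real.exp (y v / 2) ≤ 2}.Finite := by
  have h1 := (Pool.Agent.H20.HKI.d_SM K ∅ L hL y).1
  have h2 : Summable (fun x : {x : K // x ∈ L} => Real.exp (-Real.pi * qK K y x)) := by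
    refine h1.congr fun x => ?_
    simp [Pool.Agent.H28.RC.ws_empty]
  have h3 : {x : {x : K // x ∈ L} | Real.exp (-Real.pi * (4 * Module.finrank ℚ K)) ≤
      Real.exp (-Real.pi * qK K y x)}.Finite := by
    have h4 := h2.tendsto_cofinite_zero.eventually
      (gt_mem_nhds (Real.exp_pos (-Real.pi * (4 * Module.finrank ℚ K))))
    rw [Filter.eventually_cofinite] at h4
    refine h4.subset fun x hx => ?_
    exact not_lt.2 hx
  refine (h3.preimage (f := fun x : {x : K // Bl Y L x} => (⟨x.1, x.2.1⟩ : {x : K // x ∈ L}))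
    (fun x _ x' _ h => Subtype.ext (by simpa using h))).subset fun x hx => ?_
  simp only [mem_preimage, mem_ofPred_eq]
  refine Real.exp_le_exp.2 ?_
  have h5 : qK K y x.1 ≤ 4 * Module.finrank ℚ K := by
    unfold qK
    rw [← sum_mult_eq (K := K), Nat.cast_sum, Finset.mul_sum]
    refine Finset.sum_le_sum fun v _ => ?_
    have h6 : Real.exp (y v) * (v x.1) ^ 2 = (v x.1 * Real.exp (y v / 2)) ^ 2 := by
      rw [mul_pow, ← Real.exp_nat_mul]
      have : ((2 : ℕ) : ℝ) * (y v / 2) = y v := by push_cast; ring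
      rw [this]
      ring
    have h7 : 0 ≤ v x.1 * Real.exp (y v / 2) := by positivity
    have h8 := hx v
    have h9 : (v x.1 * Real.exp (y v / 2)) ^ 2 ≤ 4 := by nlinarith
    rw [mul_assoc, h6, mul_comm (4 : ℝ)]
    exact mul_le_mul_of_nonneg_left h9 (Nat.cast_nonneg _)
  nlinarith [Real.pi_pos]

end

end Pool.Agent.H35.GLB
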