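import Pool.Agent.H35.GLB.HP

/-!
# Board glb_modules: the integral over the angles
-/

set_option autoImplicit false

open NumberField NumberField.InfinitePlace NumberField.Units
  NumberField.Units.dirichletUnitTheorem MeasureTheory Set Filter Complex
open scoped nonZeroDivisors ENNReal

namespace Pool.Agent.H35.GLB

open Pool.Agent.H25.HK Pool.Agent.H23.LB Pool.Agent.H23.LC
open Pool.Agent.H28.RC (Rep ft idl)

section
open scoped Classical

variable (K : Type) [Field K] [NumberField K]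

/-- integrals of products over the box of the angles -/
theorem int_An (f : InfinitePlace K → ℝ → ℂ) :
    ∫ θ in An K, ∏ v, f v (θ v) = ∏ v, ∫ θ in Icc (0 : ℝ) (2 * Real.pi), f v θ := by
  unfold An
  rw [volume_pi, Measure.restrict_pi_pi]
  exact integral_fintype_prod_eq_prod (fun v => f v)

theorem ite_all {p : InfinitePlace K → Prop} {d : Decidable (∀ v, p v)}
    {d' : ∀ v, Decidable (p v)} :
    (if ∀ v, p v then (1 : ℂ) else 0) = ∏ v, if p v then (1 : ℂ) else 0 := by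
  by_cases h : ∀ v, p v
  · rw [if_pos h]
    exact (Finset.prod_eq_one fun v _ => if_pos (h v)).symm
  · rw [if_neg h]
    push Not at h
    obtain ⟨v, hv⟩ := h
    exact (Finset.prod_eq_zero (Finset.mem_univ v) (if_neg hv)).symm

theorem Hk_prod (δ : ℝ) (k : InfinitePlace K → ℤ) (y : InfinitePlace K → ℝ) (x : K)
    (hx : x ≠ 0) : Hk K δ k (fun v => y v + 2 * Real.log (v x)) =
      ∏ v, ∫ θ in Icc (0 : ℝ) (2 * Real.pi), an v θ ^ (-k v) *
        (if ‖((v x * Real.exp (y v / 2) : ℝ) : ℂ) * an v θ - 1‖ ≤ δ then (1 : ℂ) else 0) := by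
  rw [← int_An]
  unfold Hk
  refine integral_congr_ae (ae_of_all _ fun θ => ?_)
  simp only
  unfold ek Bp
  rw [ite_all, ← Finset.prod_mul_distrib]
  refine Finset.prod_congr rfl fun v _ => ?_
  have h1 : 0 < v x := by
    rw [InfinitePlace.pos_iff]
    exact hx
  have h2 : v.embedding (1 : K) * ((Real.exp ((y v + 2 * Real.log (v x)) / 2) : ℝ) : ℂ) =
      ((v x * Real.exp (y v / 2) : ℝ) : ℂ) := by
    rw [map_one, one_mul, add_div, Real.exp_add, mul_div_cancel_left₀ _ (two_ne_zero),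
      Real.exp_log h1, mul_comm (Real.exp (y v / 2))]
  have h3 : ‖v.embedding (1 : K) * ((Real.exp ((y v + 2 * Real.log (v x)) / 2) : ℝ) : ℂ) *
      an v (θ v) - 1‖ ≤ δ ↔ ‖((v x * Real.exp (y v / 2) : ℝ) : ℂ) * an v (θ v) - 1‖ ≤ δ := by
    rw [h2]
  exact congrArg _ (if_congr h3 rfl rfl)

/-- the integral over the angles, conjugate version -/
theorem ang_d (hAN : U_AN) (δ : ℝ) (k : InfinitePlace K → ℤ) (y : InfinitePlace K → ℝ) (x : K)
    (hx : x ≠ 0) :
    ∫ θ in An K, ek k θ * (if Bd δ x y θ then (1 : ℂ) else 0) =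
      ag (-k) x * Hk K δ (-k) (fun v => y v + 2 * Real.log (v x)) := by
  rw [Hk_prod K δ (-k) y x hx]
  unfold ag
  rw [← Finset.prod_mul_distrib]
  have h1 : ∀ v : InfinitePlace K, (v.embedding x / ((v x : ℝ) : ℂ)) ^ (-k) v *
      ∫ θ in Icc (0 : ℝ) (2 * Real.pi), an v θ ^ (-(-k) v) *
        (if ‖((v x * Real.exp (y v / 2) : ℝ) : ℂ) * an v θ - 1‖ ≤ δ then (1 : ℂ) else 0) =
      ∫ θ in Icc (0 : ℝ) (2 * Real.pi), an v θ ^ (-k v) *
        (if ‖v.embedding x * ((Real.exp (y v / 2) : ℝ) : ℂ) * (starRingEnd ℂ) (an v θ) - 1‖ ≤ δ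
          then (1 : ℂ) else 0) := by
    intro v
    have h2 := (hAN K v x hx (k v) δ (Real.exp (y v / 2)) (Real.exp_pos _)).2
    rw [h2]
    simp only [Pi.neg_apply, neg_neg]
  rw [Finset.prod_congr rfl fun v _ => h1 v, ← int_An]
  refine integral_congr_ae (ae_of_all _ fun θ => ?_)
  simp only
  unfold ek Bd
  rw [ite_all, ← Finset.prod_mul_distrib]

/-- the integral over the angles -/
theorem ang_p (hAN : U_AN) (δ : ℝ) (k : InfinitePlace K → ℤ) (y : InfinitePlace K → ℝ) (x : K)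
    (hx : x ≠ 0) :
    ∫ θ in An K, ek k θ * (if Bp δ x y θ then (1 : ℂ) else 0) =
      ag k x * Hk K δ k (fun v => y v + 2 * Real.log (v x)) := by
  rw [Hk_prod K δ k y x hx]
  unfold ag
  rw [← Finset.prod_mul_distrib]
  have h1 : ∀ v : InfinitePlace K, (v.embedding x / ((v x : ℝ) : ℂ)) ^ k v *
      ∫ θ in Icc (0 : ℝ) (2 * Real.pi), an v θ ^ (-k v) *
        (if ‖((v x * Real.exp (y v / 2) : ℝ) : ℂ) * an v θ - 1‖ ≤ δ then (1 : ℂ) else 0) =
      ∫ θ in Icc (0 : ℝ) (2 * Real.pi), an v θ ^ (-k v) *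
        (if ‖v.embedding x * ((Real.exp (y v / 2) : ℝ) : ℂ) * an v θ - 1‖ ≤ δ
          then (1 : ℂ) else 0) := by
    intro v
    exact ((hAN K v x hx (k v) δ (Real.exp (y v / 2)) (Real.exp_pos _)).1).symm
  rw [Finset.prod_congr rfl fun v _ => h1 v, ← int_An]
  refine integral_congr_ae (ae_of_all _ fun θ => ?_)
  simp only
  unfold ek Bp
  rw [ite_all, ← Finset.prod_mul_distrib]

end

end Pool.Agent.H35.GLB
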