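import Pool.Agent.H35.GLB.UNF
import Pool.Agent.H20.HKI.Leaf

/-!
# Board glb_modules: unfolding the sum over one ideal class
-/

set_option autoImplicit false

open NumberField NumberField.InfinitePlace NumberField.Units
  NumberField.Units.dirichletUnitTheorem MeasureTheory Set Filter Complex
open scoped nonZeroDivisors ENNReal

namespace Pool.Agent.H35.GLB

open Pool.Agent.H25.HK Pool.Agent.H23.LB Pool.Agent.H23.LC
open Pool.Agent.H28.RC (Rep ft idl)
open Pool.Agent.H19.RC (Par)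

section
open scoped Classical

variable (K : Type) [Field K] [NumberField K]

instance : SFinite (mz K) := by
  unfold mz
  infer_instance

theorem mp3 : MeasurePreserving
    (MeasurableEquiv.prodAssoc : (logSpace K × ℝ) × (InfinitePlace K → ℝ) ≃ᵐ _)
    ((mz K).prod (volume.restrict (An K)))
    (volume.restrict (Fd K ×ˢ (univ : Set ℝ) ×ˢ An K)) := by
  have h1 : (volume.restrict (Fd K ×ˢ (univ : Set ℝ) ×ˢ An K) :
      Measure (logSpace K × ℝ × (InfinitePlace K → ℝ))) =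
      (volume.restrict (Fd K)).prod ((volume : Measure ℝ).prod (volume.restrict (An K))) := by
    rw [Measure.volume_eq_prod, ← Measure.prod_restrict, Measure.volume_eq_prod ℝ,
      ← Measure.prod_restrict, Measure.restrict_univ]
  rw [h1]
  exact measurePreserving_prodAssoc _ _ _

theorem int3 (G : logSpace K × ℝ × (InfinitePlace K → ℝ) → ℂ) :
    ∫ p in Fd K ×ˢ (univ : Set ℝ) ×ˢ An K, G p =
      ∫ q, G (q.1.1, q.1.2, q.2) ∂((mz K).prod (volume.restrict (An K))) :=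
  ((mp3 K).integral_comp' G).symm

theorem lint3 (G : logSpace K × ℝ × (InfinitePlace K → ℝ) → ℝ≥0∞) :
    ∫⁻ p in Fd K ×ˢ (univ : Set ℝ) ×ˢ An K, G p =
      ∫⁻ q, G (q.1.1, q.1.2, q.2) ∂((mz K).prod (volume.restrict (An K))) :=
  ((mp3 K).lintegral_comp_emb (MeasurableEquiv.measurableEmbedding _) G).symm

theorem mpT (ε : ℝ) (hε : ε = 1 ∨ ε = -1) (a : logSpace K) (c : ℝ) :
    MeasurePreserving (fun p : logSpace K × ℝ => (ε • p.1 + a, p.2 + c)) volume volume := by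
  have h1 : MeasurePreserving (fun z : logSpace K => ε • z + a) volume volume := by
    rcases hε with h | h
    · subst h
      simp only [one_smul]
      exact measurePreserving_add_right volume a
    · subst h
      have h2 : (fun z : logSpace K => (-1 : ℝ) • z + a) = (fun z => z + a) ∘ (fun z => -z) := by
        funext z
        simp
      rw [h2]
      exact (measurePreserving_add_right volume a).comp (Measure.measurePreserving_neg volume)
  have h3 : MeasurePreserving (fun τ : ℝ => τ + c) volume volume :=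
    measurePreserving_add_right volume c
  exact h1.prod h3

/-- the exponent of the units -/
noncomputable def sgu (ε : ℝ) : (𝓞 K)ˣ ≃ (𝓞 K)ˣ := if ε = 1 then Equiv.refl _ else Equiv.inv _

theorem lu_sgu (ε : ℝ) (hε : ε = 1 ∨ ε = -1) (u : (𝓞 K)ˣ) : ε • lu K u = lu K (sgu K ε u) := by
  rcases hε with h | h
  · subst h
    unfold sgu
    rw [if_pos rfl]
    simp
  · subst h
    unfold sgu lu
    rw [if_neg (by norm_num)]
    simp

variable {K}

/-- a generator of every ideal in the class -/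
theorem class_unf (ε : ℝ) (hε : ε = 1 ∨ ε = -1) (L : FI K) (hL : L ≠ 0) (Y : ℝ)
    (P : logSpace K × ℝ → ℂ) (hPm : Measurable P) (hPi : Integrable P)
    (R : logSpace K × ℝ → ℝ≥0∞) (hRm : Measurable R) (hRi : ∫⁻ p, R p ≠ ∞)
    (F : K → logSpace K × ℝ × (InfinitePlace K → ℝ) → ℂ) (hFm : ∀ x, Measurable (F x))
    (β : Ideal (𝓞 K) → ℂ) (γ : Ideal (𝓞 K) → ℝ≥0∞) (hγ : ∀ J, γ J ≠ ∞)
    (h1 : ∀ x ∈ L, x ≠ 0 → ∀ z τ, ∫ θ in An K, F x (z, τ, θ) =
      β (idl K L x) * P (ε • z + zl K x, τ + Real.log (Ideal.absNorm (idl K L x))))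
    (h2 : ∀ x ∈ L, x ≠ 0 → ∀ z τ, ∫⁻ θ in An K, ‖F x (z, τ, θ)‖ₑ ≤
      γ (idl K L x) * R (ε • z + zl K x, τ + Real.log (Ideal.absNorm (idl K L x)))) :
    ∫ p in Fd K ×ˢ (univ : Set ℝ) ×ˢ An K, ∑' x : {x : K // Bl Y L x}, F x p =
      (torsionOrder K : ℂ) * (∑' J : {J : Ideal (𝓞 K) // Pri K L J},
        if Y ≤ (Ideal.absNorm J.1 : ℝ) ∧ (Ideal.absNorm J.1 : ℝ) < 2 * Y then β J else 0) *
        ∫ p, P p := by
  obtain ⟨X, hX, hX1, hXM, hXu⟩ := Pool.Agent.H19.RC.bi2 K L hL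
  have hP : Par L X := ⟨hX, fun J => (hX1 J).1, hXM, hXu⟩
  have hID := Pool.Agent.H20.HKI.d_ID
  have hco : Countable ({I : Ideal (𝓞 K) // Pri K L I} × (𝓞 K)ˣ) :=
    hP.countable Pool.Agent.H20.HKI.d_SM hL
  set A : Ideal (𝓞 K) → Prop := fun J =>
    Y ≤ (Ideal.absNorm J : ℝ) ∧ (Ideal.absNorm J : ℝ) < 2 * Y with hA
  -- the equivalence
  let e : {J : {J : Ideal (𝓞 K) // Pri K L J} // A J.1} × (𝓞 K)ˣ ≃ {x : K // Bl Y L x} :=
    Equiv.ofBijective (fun q => ⟨(q.2 : K) * X q.1.1, by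
      have h3 := hP.idl_eq hID hL (q.1.1, q.2)
      refine ⟨hP.XM _ _, hP.ne (q.1.1, q.2), ?_, ?_⟩
      · rw [h3]; exact q.1.2.1
      · rw [h3]; exact q.1.2.2⟩) (by
      constructor
      · rintro ⟨⟨J, hJ⟩, u⟩ ⟨⟨J', hJ'⟩, u'⟩ h
        have h3 : (u : K) * X J = (u' : K) * X J' := congrArg Subtype.val h
        have h4 := (hP.un _ (hP.XM J u) (hP.ne (J, u))).unique
          (y₁ := (J, u)) (y₂ := (J', u')) rfl h3
        have h5 := Prod.ext_iff.1 h4
        have h6 : J = J' := h5.1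
        have h7 : u = u' := h5.2
        subst h6 h7
        rfl
      · rintro ⟨x, hx⟩
        obtain ⟨p, hp, -⟩ := hP.un x hx.1 hx.2.1
        have h3 := hP.idl_eq hID hL p
        refine ⟨(⟨p.1, ?_⟩, p.2), Subtype.ext hp.symm⟩
        rw [← hp] at h3
        rw [← h3]
        exact ⟨hx.2.2.1, hx.2.2.2⟩)
  have hek : ∀ q, ((e q : {x : K // Bl Y L x}) : K) = (q.2 : K) * X q.1.1 := fun q => rfl
  have hcI : Countable ({J : {J : Ideal (𝓞 K) // Pri K L J} // A J.1} × (𝓞 K)ˣ) := by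
    refine Function.Injective.countable (f := fun q => ((q.1.1, q.2) :
      {I : Ideal (𝓞 K) // Pri K L I} × (𝓞 K)ˣ)) ?_
    rintro ⟨⟨J, hJ⟩, u⟩ ⟨⟨J', hJ'⟩, u'⟩ h
    have h5 := Prod.ext_iff.1 h
    have h6 : J = J' := h5.1
    have h7 : u = u' := h5.2
    subst h6 h7
    rfl
  have hfin : Finite {J : {J : Ideal (𝓞 K) // Pri K L J} // A J.1} := by
    have h3 : {J : Ideal (𝓞 K) | Ideal.absNorm J ≤ ⌊2 * Y⌋₊}.Finite :=
      Ideal.finite_setOfPred_absNorm_le _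
    have h4 := h3.to_subtype
    refine Finite.of_injective (fun J : {J : {J : Ideal (𝓞 K) // Pri K L J} // A J.1} =>
      (⟨J.1.1, ?_⟩ : {J : Ideal (𝓞 K) | Ideal.absNorm J ≤ ⌊2 * Y⌋₊})) ?_
    · exact Nat.le_floor J.2.2.le
    · intro J J' h
      have h5 : J.1.1 = J'.1.1 := Subtype.mk.inj h
      exact Subtype.ext (Subtype.ext h5)
  -- the functions on the space of `(z, τ)`
  set mA : Measure (InfinitePlace K → ℝ) := volume.restrict (An K) with hmA
  set c : Ideal (𝓞 K) → ℝ := fun J => Real.log (Ideal.absNorm J) with hc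
  have hcu : ∀ J : {J : {J : Ideal (𝓞 K) // Pri K L J} // A J.1}, Countable (𝓞 K)ˣ := fun J =>
    Function.Injective.countable (f := fun u : (𝓞 K)ˣ =>
      ((J.1, u) : {I : Ideal (𝓞 K) // Pri K L I} × (𝓞 K)ˣ)) fun u v h => (Prod.ext_iff.1 h).2
  have hxm : ∀ q : {J : {J : Ideal (𝓞 K) // Pri K L J} // A J.1} × (𝓞 K)ˣ,
      (q.2 : K) * X q.1.1 ∈ L := fun q => hP.XM _ _
  have hx0 : ∀ q : {J : {J : Ideal (𝓞 K) // Pri K L J} // A J.1} × (𝓞 K)ˣ,
      (q.2 : K) * X q.1.1 ≠ 0 := fun q => hP.ne (q.1.1, q.2)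
  have hid : ∀ q : {J : {J : Ideal (𝓞 K) // Pri K L J} // A J.1} × (𝓞 K)ˣ,
      idl K L ((q.2 : K) * X q.1.1) = q.1.1.1 := fun q => hP.idl_eq hID hL (q.1.1, q.2)
  have hzl : ∀ (q : {J : {J : Ideal (𝓞 K) // Pri K L J} // A J.1} × (𝓞 K)ˣ) (z : logSpace K),
      ε • z + zl K ((q.2 : K) * X q.1.1) =
        ε • (z + lu K (sgu K ε q.2)) + zl K (X q.1.1) := by
    intro q z
    rw [zl_mul K _ _ (by simp) (hP.X0 _), zl_unit, ← lu_sgu K ε hε, smul_add, smul_smul]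
    have : ε * ε = 1 := by rcases hε with h | h <;> rw [h] <;> norm_num
    rw [this, one_smul, add_assoc]
  set PJ : {J : {J : Ideal (𝓞 K) // Pri K L J} // A J.1} → logSpace K × ℝ → ℂ := fun J p =>
    P (ε • p.1 + zl K (X J.1), p.2 + c J.1.1) with hPJ
  set RJ : {J : {J : Ideal (𝓞 K) // Pri K L J} // A J.1} → logSpace K × ℝ → ℝ≥0∞ := fun J p =>
    R (ε • p.1 + zl K (X J.1), p.2 + c J.1.1) with hRJ
  have hmT := fun J : {J : {J : Ideal (𝓞 K) // Pri K L J} // A J.1} =>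
    mpT K ε hε (zl K (X J.1)) (c J.1.1)
  have hPJm : ∀ J, Measurable (PJ J) := fun J => hPm.comp (hmT J).measurable
  have hRJm : ∀ J, Measurable (RJ J) := fun J => hRm.comp (hmT J).measurable
  have hPJi : ∀ J, Integrable (PJ J) := fun J => (hmT J).integrable_comp_of_integrable hPi
  have hPJ2 : ∀ J, ∫ p, PJ J p = ∫ p, P p := by
    intro J
    have h3 := (hmT J).map_eq
    conv_rhs => rw [← h3]
    rw [integral_map (hmT J).measurable.aemeasurable hPm.aestronglyMeasurable]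
  have hRJ2 : ∀ J, ∫⁻ p, RJ J p = ∫⁻ p, R p := fun J => (hmT J).lintegral_comp hRm
  -- the terms
  have hFm3 : ∀ q : {J : {J : Ideal (𝓞 K) // Pri K L J} // A J.1} × (𝓞 K)ˣ,
      Measurable (fun r : (logSpace K × ℝ) × (InfinitePlace K → ℝ) =>
        F ((q.2 : K) * X q.1.1) (r.1.1, r.1.2, r.2)) := fun q => (hFm _).comp (by fun_prop)
  have hl : ∀ q : {J : {J : Ideal (𝓞 K) // Pri K L J} // A J.1} × (𝓞 K)ˣ,
      ∫⁻ p in Fd K ×ˢ (univ : Set ℝ) ×ˢ An K, ‖F ((q.2 : K) * X q.1.1) p‖ₑ ≤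
      γ q.1.1.1 * ∫⁻ p, RJ q.1 (p.1 + lu K (sgu K ε q.2), p.2) ∂(mz K) := by
    intro q
    rw [lint3, lintegral_prod _ (hFm3 q).enorm.aemeasurable, ← lintegral_const_mul]
    · refine lintegral_mono fun p => ?_
      have h3 := h2 _ (hxm q) (hx0 q) p.1 p.2
      rw [hid q, hzl q] at h3
      exact h3
    · exact (hRJm q.1).comp (by fun_prop)
  have htot : ∑' q : {J : {J : Ideal (𝓞 K) // Pri K L J} // A J.1} × (𝓞 K)ˣ,
      ∫⁻ p in Fd K ×ˢ (univ : Set ℝ) ×ˢ An K, ‖F ((q.2 : K) * X q.1.1) p‖ₑ ≠ ∞ := by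
    refine ne_top_of_le_ne_top ?_ (ENNReal.tsum_le_tsum hl)
    rw [ENNReal.tsum_prod']
    have h3 : ∀ J : {J : {J : Ideal (𝓞 K) // Pri K L J} // A J.1}, ∑' u : (𝓞 K)ˣ,
        γ J.1.1 * ∫⁻ p, RJ J (p.1 + lu K (sgu K ε u), p.2) ∂(mz K) =
        γ J.1.1 * ((torsionOrder K : ℝ≥0∞) * ∫⁻ p, R p) := by
      intro J
      have hcJ := hcu J
      rw [ENNReal.tsum_mul_left, (sgu K ε).tsum_eq
        (fun u => ∫⁻ p, RJ J (p.1 + lu K u, p.2) ∂(mz K)),
        unf_norm K Pool.Agent.H66.HK.fd Pool.Agent.H41.HK.un (RJ J) (hRJm J), hRJ2]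
    simp only [h3]
    have := Fintype.ofFinite {J : {J : Ideal (𝓞 K) // Pri K L J} // A J.1}
    rw [tsum_fintype]
    refine ENNReal.sum_ne_top.2 fun J _ => ?_
    exact ENNReal.mul_ne_top (hγ _) (ENNReal.mul_ne_top (ENNReal.natCast_ne_top _) hRi)
  have hi : ∀ q : {J : {J : Ideal (𝓞 K) // Pri K L J} // A J.1} × (𝓞 K)ˣ,
      ∫ p in Fd K ×ˢ (univ : Set ℝ) ×ˢ An K, F ((q.2 : K) * X q.1.1) p =
      β q.1.1.1 * ∫ p, PJ q.1 (p.1 + lu K (sgu K ε q.2), p.2) ∂(mz K) := by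
    intro q
    have h3 : Integrable (fun r : (logSpace K × ℝ) × (InfinitePlace K → ℝ) =>
        F ((q.2 : K) * X q.1.1) (r.1.1, r.1.2, r.2)) ((mz K).prod mA) := by
      refine ⟨(hFm3 q).aestronglyMeasurable, ?_⟩
      have h4 := ENNReal.ne_top_of_tsum_ne_top htot q
      rw [lint3] at h4
      exact lt_top_iff_ne_top.2 h4
    rw [int3, integral_prod _ h3, ← integral_const_mul]
    refine integral_congr_ae (ae_of_all _ fun p => ?_)
    have h5 := h1 _ (hxm q) (hx0 q) p.1 p.2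
    rw [hid q, hzl q] at h5
    exact h5
  have hsR := ENNReal.summable_toReal htot
  have hsI : Summable (fun q : {J : {J : Ideal (𝓞 K) // Pri K L J} // A J.1} × (𝓞 K)ˣ =>
      ∫ p in Fd K ×ˢ (univ : Set ℝ) ×ˢ An K, F ((q.2 : K) * X q.1.1) p) := by
    refine Summable.of_norm_bounded hsR fun q => ?_
    refine (norm_integral_le_integral_norm _).trans (le_of_eq ?_)
    rw [integral_norm_eq_lintegral_enorm (hFm _).aestronglyMeasurable]
  have hsum : ∫ p in Fd K ×ˢ (univ : Set ℝ) ×ˢ An K, ∑' x : {x : K // Bl Y L x}, F x p =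
      ∑' q : {J : {J : Ideal (𝓞 K) // Pri K L J} // A J.1} × (𝓞 K)ˣ,
        ∫ p in Fd K ×ˢ (univ : Set ℝ) ×ˢ An K, F ((q.2 : K) * X q.1.1) p := by
    rw [← integral_tsum (fun q => (hFm _).aestronglyMeasurable) htot]
    refine integral_congr_ae (ae_of_all _ fun p => ?_)
    exact (e.tsum_eq (fun x => F x.1 p)).symm
  rw [hsum, hsI.tsum_prod]
  have hJ : ∀ J : {J : {J : Ideal (𝓞 K) // Pri K L J} // A J.1}, ∑' u : (𝓞 K)ˣ,
      ∫ p in Fd K ×ˢ (univ : Set ℝ) ×ˢ An K, F ((u : K) * X J.1) p =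
      β J.1.1 * ((torsionOrder K : ℂ) * ∫ p, P p) := by
    intro J
    have hcJ := hcu J
    have h3 : ∀ u : (𝓞 K)ˣ, ∫ p in Fd K ×ˢ (univ : Set ℝ) ×ˢ An K, F ((u : K) * X J.1) p =
        β J.1.1 * ∫ p, PJ J (p.1 + lu K (sgu K ε u), p.2) ∂(mz K) := fun u => hi (J, u)
    simp only [h3]
    rw [tsum_mul_left, (sgu K ε).tsum_eq (fun u => ∫ p, PJ J (p.1 + lu K u, p.2) ∂(mz K)),
      (unf_int K Pool.Agent.H66.HK.fd Pool.Agent.H41.HK.un (PJ J) (hPJm J) (hPJi J)).2.2, hPJ2]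
  simp only [hJ]
  rw [tsum_mul_right]
  have h3 : ∑' J : {J : {J : Ideal (𝓞 K) // Pri K L J} // A J.1}, β J.1.1 =
      ∑' J : {J : Ideal (𝓞 K) // Pri K L J}, if A J.1 then β J else 0 := by
    have h4 := tsum_subtype {J : {J : Ideal (𝓞 K) // Pri K L J} | A J.1}
      (fun J => β J.1)
    refine h4.trans (tsum_congr fun J => ?_)
    rw [indicator_apply]
    rfl
  rw [h3]
  ring

end

end Pool.Agent.H35.GLB
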