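import Pool.Agent.H35.GLB.UDa

/-!
# Board glb_modules, module UD, part 2
-/

set_option autoImplicit false

open NumberField NumberField.InfinitePlace NumberField.Units
  NumberField.Units.dirichletUnitTheorem MeasureTheory Set Filter Complex
open scoped nonZeroDivisors ENNReal

namespace Pool.Agent.H35.GLB

open Pool.Agent.H25.HK Pool.Agent.H23.LB Pool.Agent.H23.LC
open Pool.Agent.H28.RC (Rep ft idl)

section
open scoped Classical

variable {K : Type} [Field K] [NumberField K] {f : Ideal (𝓞 K)}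

/-- the value of the coefficient at an element of the dual lattice -/
theorem ch_ag (hAG : U_AG) (hDC : U_DC) (hPU : T_PU) (hf : f ≠ ⊥) (D : Sys K f) (χ : HG K f)
    (c : D.ι) (x : K) (hx : x ∈ du K ((f : FI K) * D.M c)) (hx0 : x ≠ 0) :
    ch D χ c x * ag (-χ.k) x = ((Real.sqrt (Nf K f) : ℝ) : ℂ) *
      cd D χ (idl K (du K ((f : FI K) * D.M c)) x) * ph χ.ν x ∧
    ‖ch D χ c x‖ₑ = ‖((Real.sqrt (Nf K f) : ℝ) : ℂ) *
      cd D χ (idl K (du K ((f : FI K) * D.M c)) x)‖ₑ := by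
  have h1 := (hDC K f hf D χ).2 c x hx hx0
  have h2 := (hAG K χ.k).2.2.2.1 x hx0
  have h3 : (starRingEnd ℂ) (ph χ.ν x) * ph χ.ν x = 1 := by
    rw [mul_comm, Complex.mul_conj, Complex.normSq_eq_norm_sq, (hPU K).2.2.2.2.2.2 χ.ν x]
    norm_num
  refine ⟨?_, ?_⟩
  · rw [h1, h2, mul_assoc _ ((starRingEnd ℂ) (ph χ.ν x)), h3, mul_one]
  · rw [h1, ← ofReal_norm, ← ofReal_norm, norm_mul, norm_mul, RCLike.norm_conj, RCLike.norm_conj,
      (hAG K χ.k).2.1 x hx0, (hPU K).2.2.2.2.2.2 χ.ν x, mul_one, mul_one]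

/-- the terms -/
noncomputable def Fd' (D : Sys K f) (χ : HG K f) (c : D.ι) (b : Ideal (𝓞 K) → ℂ) (δ t : ℝ)
    (x : K) (p : logSpace K × ℝ × (InfinitePlace K → ℝ)) : ℂ :=
  ec K χ.ν p.1 * cexp (t * p.2.1 * I) * (ek χ.k p.2.2 *
    if Bd δ x (yM K (du K ((f : FI K) * D.M c)) p.2.1 (-p.1)) p.2.2 then
      b (idl K (du K ((f : FI K) * D.M c)) x) * ch D χ c x else 0)

theorem yM_meas (L : FI K) : Measurable (fun p : logSpace K × ℝ × (InfinitePlace K → ℝ) =>
    yM K L p.2.1 (-p.1)) := by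
  have h1 : Continuous (fun p : logSpace K × ℝ × (InfinitePlace K → ℝ) =>
    ((-p.1, p.2.1 - Real.log (FractionalIdeal.absNorm L : ℝ)) : logSpace K × ℝ)) := by
    fun_prop
  exact ((yc_cont K).comp h1).measurable

theorem Fd_meas (hPU : T_PU) (D : Sys K f) (χ : HG K f) (c : D.ι) (b : Ideal (𝓞 K) → ℂ)
    (δ t : ℝ) (x : K) : Measurable (Fd' D χ c b δ t x) := by
  have h1 : Continuous (fun p : logSpace K × ℝ × (InfinitePlace K → ℝ) => ec K χ.ν p.1) :=
    ((hPU K).2.2.2.2.1 χ.ν).1.comp continuous_fst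
  have h2 : Continuous (fun p : logSpace K × ℝ × (InfinitePlace K → ℝ) =>
    cexp (t * p.2.1 * I)) := by fun_prop
  have h3 : Measurable (fun p : logSpace K × ℝ × (InfinitePlace K → ℝ) => ek χ.k p.2.2) :=
    (ek_meas K χ.k).comp (measurable_snd.comp measurable_snd)
  have h4 : Measurable (fun p : logSpace K × ℝ × (InfinitePlace K → ℝ) =>
      (yM K (du K ((f : FI K) * D.M c)) p.2.1 (-p.1), p.2.2)) :=
    (yM_meas _).prodMk (measurable_snd.comp measurable_snd)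
  exact (h1.measurable.mul h2.measurable).mul (h3.mul
    (Measurable.ite (h4 (Bd_meas K δ x)) measurable_const measurable_const))

theorem ec_enorm (hPU : T_PU) (ν : InfinitePlace K → ℝ) (z : logSpace K) : ‖ec K ν z‖ₑ = 1 := by
  rw [← ofReal_norm, ((hPU K).2.2.2.2.1 ν).2, ENNReal.ofReal_one]

theorem exp_enorm (t τ : ℝ) : ‖cexp (t * τ * I)‖ₑ = 1 := by
  have : (t : ℂ) * τ * I = ((t * τ : ℝ) : ℂ) * I := by push_cast; ring
  rw [← ofReal_norm, this, Complex.norm_exp_ofReal_mul_I, ENNReal.ofReal_one]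

theorem ek_enorm (k : InfinitePlace K → ℤ) (θ : InfinitePlace K → ℝ) : ‖ek k θ‖ₑ = 1 := by
  rw [← ofReal_norm, ek_norm, ENNReal.ofReal_one]

/-- the sum over the residue classes -/
theorem sum_res (D : Sys K f) (χ : HG K f) (c : D.ι) (hL : du K ((f : FI K) * D.M c) ≠ 0)
    (b : Ideal (𝓞 K) → ℂ) (δ Y t : ℝ) (hδ : δ ≤ 1)
    (p : logSpace K × ℝ × (InfinitePlace K → ℝ)) :
    ∑ r ∈ D.X c, cg χ (D.M c) r * (ec K χ.ν p.1 * cexp (t * p.2.1 * I) *
      (ek χ.k p.2.2 * Sd δ Y b (du K ((f : FI K) * D.M c)) r p.2.1 p.1 p.2.2)) =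
    ∑' x : {x : K // Bl Y (du K ((f : FI K) * D.M c)) x}, Fd' D χ c b δ t x p := by
  set L := du K ((f : FI K) * D.M c) with hLd
  set T : K → {x : K // Bl Y L x} → ℂ := fun r x =>
    if Bd δ x.1 (yM K L p.2.1 (-p.1)) p.2.2 then b (idl K L x) * ca K r x else 0 with hT
  have hfin : ∀ g : {x : K // Bl Y L x} → ℂ, Summable (fun x : {x : K // Bl Y L x} =>
      if Bd δ x.1 (yM K L p.2.1 (-p.1)) p.2.2 then g x else 0) := by
    intro g
    refine summable_of_hasFiniteSupport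
      ((fin_pts K L hL Y (yM K L p.2.1 (-p.1))).subset fun x hx => ?_)
    by_cases h : Bd δ x.1 (yM K L p.2.1 (-p.1)) p.2.2
    · have h1 := Bd_B0 K δ x.1 _ _ x.2.2.1 h
      intro v
      have h2 := (abs_le.1 (h1 v)).2
      have h3 : 0 < v x.1 := by
        rw [InfinitePlace.pos_iff]
        exact x.2.2.1
      rw [add_div, Real.exp_add, mul_div_cancel_left₀ _ (two_ne_zero), Real.exp_log h3] at h2
      linarith [mul_comm (v x.1) (Real.exp (yM K L p.2.1 (-p.1) v / 2))]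
    · exact absurd (if_neg h) hx
  have h1 : ∀ r, Sd δ Y b L r p.2.1 p.1 p.2.2 = ∑' x, T r x := fun r => rfl
  have h2 : ∀ r ∈ D.X c, cg χ (D.M c) r * (ec K χ.ν p.1 * cexp (t * p.2.1 * I) *
      (ek χ.k p.2.2 * Sd δ Y b L r p.2.1 p.1 p.2.2)) =
      ∑' x, ec K χ.ν p.1 * cexp (t * p.2.1 * I) * (ek χ.k p.2.2 *
        (cg χ (D.M c) r * T r x)) := by
    intro r _
    rw [tsum_mul_left, tsum_mul_left, tsum_mul_left, h1]
    ring
  rw [Finset.sum_congr rfl h2, ← Summable.tsum_finsetSum]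
  · refine tsum_congr fun x => ?_
    unfold Fd'
    rw [← Finset.mul_sum, ← Finset.mul_sum]
    congr 2
    by_cases h : Bd δ x.1 (yM K L p.2.1 (-p.1)) p.2.2
    · rw [if_pos h]
      unfold ch ft
      rw [Finset.mul_sum]
      refine Finset.sum_congr rfl fun r _ => ?_
      simp only [hT]
      rw [if_pos h]
      unfold ca
      ring
    · rw [if_neg h]
      refine Finset.sum_eq_zero fun r _ => ?_
      simp only [hT]
      rw [if_neg h, mul_zero]
  · intro r _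
    refine Summable.mul_left _ (Summable.mul_left _ (Summable.mul_left _ ?_))
    exact hfin fun x => b (idl K L x) * ca K r x

/-- integrability -/
theorem Sd_int (hPU : T_PU) (hSM : U_SM) (χ : HG K f) (hf : f ≠ ⊥) (L : FI K) (hL : L ≠ 0)
    (r : K) (b : Ideal (𝓞 K) → ℂ) (δ Y t : ℝ) (hδ : 0 < δ)
    (hn : Module.finrank ℚ K * δ ≤ 1 / 8) (hY : 0 < Y) :
    IntegrableOn (fun p : logSpace K × ℝ × (InfinitePlace K → ℝ) =>
      ec K χ.ν p.1 * cexp (t * p.2.1 * I) * (ek χ.k p.2.2 * Sd δ Y b L r p.2.1 p.1 p.2.2))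
      (Fd K ×ˢ (univ : Set ℝ) ×ˢ An K) := by
  obtain ⟨-, h1, ⟨C, h2⟩, h3⟩ := hSM K f L r δ Y b hf hL hδ hn hY
  have hm : Measurable (fun p : logSpace K × ℝ × (InfinitePlace K → ℝ) =>
      ec K χ.ν p.1 * cexp (t * p.2.1 * I) * (ek χ.k p.2.2 * Sd δ Y b L r p.2.1 p.1 p.2.2)) := by
    have h4 : Continuous (fun p : logSpace K × ℝ × (InfinitePlace K → ℝ) => ec K χ.ν p.1) :=
      ((hPU K).2.2.2.2.1 χ.ν).1.comp continuous_fst
    have h5 : Continuous (fun p : logSpace K × ℝ × (InfinitePlace K → ℝ) =>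
      cexp (t * p.2.1 * I)) := by fun_prop
    have h6 : Measurable (fun p : logSpace K × ℝ × (InfinitePlace K → ℝ) => ek χ.k p.2.2) :=
      (ek_meas K χ.k).comp (measurable_snd.comp measurable_snd)
    exact (h4.measurable.mul h5.measurable).mul (h6.mul h1)
  refine ⟨hm.aestronglyMeasurable, ?_⟩
  have hFm := (Pool.Agent.H66.HK.fd K).1
  have hAm : MeasurableSet (An K) := MeasurableSet.univ_pi fun _ => measurableSet_Icc
  have hS : MeasurableSet (Fd K ×ˢ (univ : Set ℝ) ×ˢ An K) := hFm.prod (MeasurableSet.univ.prod hAm)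
  have hb : ∫⁻ p in Fd K ×ˢ (univ : Set ℝ) ×ˢ An K, ‖ec K χ.ν p.1 * cexp (t * p.2.1 * I) *
      (ek χ.k p.2.2 * Sd δ Y b L r p.2.1 p.1 p.2.2)‖ₑ ≤
      ∫⁻ p in Fd K ×ˢ (univ : Set ℝ) ×ˢ An K, ENNReal.ofReal C *
        (univ ×ˢ Icc (-Real.log Y - 1) (-Real.log Y + 1) ×ˢ univ :
          Set (logSpace K × ℝ × (InfinitePlace K → ℝ))).indicator 1 p := by
    refine setLIntegral_mono' hS fun p hp => ?_
    rw [enorm_mul, enorm_mul, enorm_mul, ec_enorm hPU, exp_enorm, ek_enorm, one_mul, one_mul,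
      one_mul]
    by_cases h4 : Sd δ Y b L r p.2.1 p.1 p.2.2 = 0
    · rw [h4, enorm_zero]
      exact bot_le
    · have h5 := abs_le.1 ((h3 p.2.1 p.1 p.2.2).2 h4)
      rw [indicator_of_mem]
      · rw [Pi.one_apply, mul_one, ← ofReal_norm]
        exact ENNReal.ofReal_le_ofReal (h2 p.2.1 p.1 p.2.2 hp.1).2
      · exact ⟨mem_univ _, ⟨by linarith [h5.1], by linarith [h5.2]⟩, mem_univ _⟩
  refine lt_of_le_of_lt hb ?_
  rw [lintegral_const_mul' _ _ ENNReal.ofReal_ne_top]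
  refine ENNReal.mul_lt_top ENNReal.ofReal_lt_top ?_
  rw [lintegral_indicator_one (MeasurableSet.univ.prod (measurableSet_Icc.prod MeasurableSet.univ)),
    Measure.restrict_apply (MeasurableSet.univ.prod (measurableSet_Icc.prod MeasurableSet.univ)),
    Set.prod_inter_prod, Set.prod_inter_prod, univ_inter, inter_univ, univ_inter,
    Measure.volume_eq_prod, Measure.prod_prod, Measure.volume_eq_prod, Measure.prod_prod]
  exact ENNReal.mul_lt_top (Pool.Agent.H66.HK.fd K).2.2.2.1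
    (ENNReal.mul_lt_top isCompact_Icc.measure_lt_top (An_fin K))

end

end Pool.Agent.H35.GLB
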