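import Pool.Agent.H23.LC.Targets
import Pool.Agent.H47.GLA.UZ1
import Pool.Agent.H87.HK.YC

/-!
# Board glb_modules: unfolding for measurable functions
-/

set_option autoImplicit false

open NumberField NumberField.InfinitePlace NumberField.Units
  NumberField.Units.dirichletUnitTheorem MeasureTheory Set Filter Complex
open scoped nonZeroDivisors ENNReal

namespace Pool.Agent.H35.GLB

open Pool.Agent.H25.HK Pool.Agent.H23.LB Pool.Agent.H23.LC
open Pool.Agent.H28.RC (Rep ft idl)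
open Pool.Agent.H47.GLA (tsum_units)

section
open scoped Classical

variable (K : Type) [Field K] [NumberField K]

/-- the measure on the strip -/
noncomputable def mz : Measure (logSpace K × ℝ) :=
  (volume.restrict (Fd K)).prod (volume : Measure ℝ)

/-- the logarithm of a unit -/
noncomputable def lu (u : (𝓞 K)ˣ) : logSpace K := logEmbedding K (Additive.ofMul u)

theorem unf_norm (hFD : T_FD) (hUN : T_UN) [Countable (𝓞 K)ˣ] (Q : logSpace K × ℝ → ℝ≥0∞)
    (hQ : Measurable Q) :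
    ∑' u : (𝓞 K)ˣ, ∫⁻ p, Q (p.1 + lu K u, p.2) ∂(mz K) =
      (torsionOrder K : ℝ≥0∞) * ∫⁻ p, Q p := by
  have hg : Measurable (fun z : logSpace K => ∫⁻ τ : ℝ, Q (z, τ)) :=
    hQ.lintegral_prod_right'
  have hm : ∀ u : (𝓞 K)ˣ, Measurable (fun p : logSpace K × ℝ => Q (p.1 + lu K u, p.2)) :=
    fun u => hQ.comp (by fun_prop)
  have h1 : ∀ u : (𝓞 K)ˣ, ∫⁻ p, Q (p.1 + lu K u, p.2) ∂(mz K) =
      ∫⁻ z in Fd K, ∫⁻ τ : ℝ, Q (z + lu K u, τ) := by
    intro u
    unfold mz
    rw [lintegral_prod _ (hm u).aemeasurable]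
  have h2 : ∫⁻ p : logSpace K × ℝ, Q p = ∫⁻ z : logSpace K, ∫⁻ τ : ℝ, Q (z, τ) := by
    rw [Measure.volume_eq_prod, lintegral_prod _ hQ.aemeasurable]
  simp only [h1, h2]
  rw [← lintegral_tsum]
  · rw [← (hFD K).2.2.2.2.1 _ hg, ← lintegral_const_mul']
    · refine lintegral_congr fun z => ?_
      exact hUN K (fun l => ∫⁻ τ : ℝ, Q (z + l, τ))
    · exact ENNReal.natCast_ne_top _
  · intro u
    have : Measurable (fun z : logSpace K => z + lu K u) := by fun_prop
    exact (hg.comp this).aemeasurable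

theorem unf_int (hFD : T_FD) (hUN : T_UN) [Countable (𝓞 K)ˣ] (Q : logSpace K × ℝ → ℂ)
    (hQ : Measurable Q) (hQi : Integrable Q) :
    (∀ u : (𝓞 K)ˣ, Integrable (fun p : logSpace K × ℝ => Q (p.1 + lu K u, p.2)) (mz K)) ∧
    (Summable fun u : (𝓞 K)ˣ => ∫ p, Q (p.1 + lu K u, p.2) ∂(mz K)) ∧
    ∑' u : (𝓞 K)ˣ, ∫ p, Q (p.1 + lu K u, p.2) ∂(mz K) =
      (torsionOrder K : ℂ) * ∫ p, Q p := by
  have hn := unf_norm K hFD hUN (fun p => ‖Q p‖ₑ) hQ.enorm
  have hfin : (torsionOrder K : ℝ≥0∞) * ∫⁻ p, ‖Q p‖ₑ ≠ ∞ :=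
    ENNReal.mul_ne_top (ENNReal.natCast_ne_top _) hQi.2.ne
  rw [← hn] at hfin
  have hc : ∀ u : (𝓞 K)ˣ, Measurable (fun p : logSpace K × ℝ => Q (p.1 + lu K u, p.2)) :=
    fun u => hQ.comp (by fun_prop)
  have h1 : ∀ u : (𝓞 K)ˣ, Integrable (fun p : logSpace K × ℝ => Q (p.1 + lu K u, p.2)) (mz K) :=
    fun u => ⟨(hc u).aestronglyMeasurable, lt_top_iff_ne_top.2
      (ENNReal.ne_top_of_tsum_ne_top hfin u)⟩
  have hsR : Summable fun u : (𝓞 K)ˣ => (∫⁻ p, ‖Q (p.1 + lu K u, p.2)‖ₑ ∂(mz K)).toReal :=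
    ENNReal.summable_toReal hfin
  have hle : ∀ u : (𝓞 K)ˣ, ‖∫ p, Q (p.1 + lu K u, p.2) ∂(mz K)‖ ≤
      (∫⁻ p, ‖Q (p.1 + lu K u, p.2)‖ₑ ∂(mz K)).toReal := by
    intro u
    have h2 := norm_integral_le_integral_norm (μ := mz K)
      (fun p : logSpace K × ℝ => Q (p.1 + lu K u, p.2))
    refine h2.trans (le_of_eq ?_)
    rw [integral_norm_eq_lintegral_enorm (hc u).aestronglyMeasurable]
  have hs : Summable fun u : (𝓞 K)ˣ => ∫ p, Q (p.1 + lu K u, p.2) ∂(mz K) :=
    Summable.of_norm_bounded hsR hle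
  refine ⟨h1, hs, ?_⟩
  -- the function of `z`
  set G : logSpace K → ℂ := fun z => ∫ τ : ℝ, Q (z, τ) with hG
  have hGm : StronglyMeasurable G :=
    hQ.stronglyMeasurable.integral_prod_right'
  have hGi : Integrable G := by
    have h3 : Integrable Q ((volume : Measure (logSpace K)).prod (volume : Measure ℝ)) := hQi
    exact h3.integral_prod_left
  have h4 : ∀ u : (𝓞 K)ˣ, ∫ p, Q (p.1 + lu K u, p.2) ∂(mz K) =
      ∫ z in Fd K, G (z + lu K u) := by
    intro u
    have h5 := h1 u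
    unfold mz at h5 ⊢
    rw [integral_prod _ h5]
  have h6 : ∫ p, Q p = ∫ z, G z := by
    have h3 : Integrable Q ((volume : Measure (logSpace K)).prod (volume : Measure ℝ)) := hQi
    rw [Measure.volume_eq_prod, integral_prod _ h3]
  have h7 : ∑' u : (𝓞 K)ˣ, ∫ p, Q (p.1 + lu K u, p.2) ∂(mz K) =
      (torsionOrder K : ℂ) * ∑' l : unitLattice K, ∫ z in Fd K, G (z + l) := by
    simp only [h4]
    exact tsum_units K (fun l => ∫ z in Fd K, G (z + l)) (by
      refine hs.congr fun u => ?_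
      rw [h4]
      rfl)
  rw [h7, h6]
  congr 1
  have h8 := (hFD K).2.2.2.2.2.1 G hGi
  rw [← h8.2]
  have hgm : Measurable (fun z : logSpace K => ‖G z‖ₑ) := hGm.measurable.enorm
  rw [integral_tsum]
  · intro l
    have : Measurable (fun z : logSpace K => z + (l : logSpace K)) := by fun_prop
    exact (hGm.comp_measurable this).aestronglyMeasurable
  · have : Countable (unitLattice K) := inferInstance
    rw [← lintegral_tsum]
    · have h9 := (hFD K).2.2.2.2.1 (fun z => ‖G z‖ₑ) hgm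
      rw [h9]
      exact hGi.2.ne
    · intro l
      have : Measurable (fun z : logSpace K => z + (l : logSpace K)) := by fun_prop
      exact (hgm.comp this).aemeasurable

/-- the logarithmic vector of an element -/
noncomputable def zl (x : K) : logSpace K := fun w =>
  (w.1.mult : ℝ) * (Real.log (w.1 x) -
    Real.log (((|Algebra.norm ℚ x| : ℚ) : ℝ)) / Module.finrank ℚ K)

theorem sum_log (x : K) (hx : x ≠ 0) : ∑ v : InfinitePlace K, (v.mult : ℝ) * Real.log (v x) =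
    Real.log (((|Algebra.norm ℚ x| : ℚ) : ℝ)) := by
  have h1 := prod_eq_abs_norm x
  have h2 := congrArg Real.log h1
  rw [Real.log_prod] at h2
  · simp only [Real.log_pow] at h2
    rw [h2]
  · intro v _
    refine pow_ne_zero _ ?_
    simpa using hx

theorem yc_zl (x : K) (hx : x ≠ 0) (v : InfinitePlace K) :
    yc K (Real.log (((|Algebra.norm ℚ x| : ℚ) : ℝ))) (zl K x) v = 2 * Real.log (v x) := by
  have hn : (Module.finrank ℚ K : ℝ) ≠ 0 := by
    exact_mod_cast (Module.finrank_pos (R := ℚ) (M := K)).ne'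
  have hw : ((w₀ : InfinitePlace K).mult : ℝ) ≠ 0 := (Pool.Agent.H87.HK.mult_pos' K _).ne'
  set N : ℝ := Real.log (((|Algebra.norm ℚ x| : ℚ) : ℝ)) with hN
  by_cases h : v = w₀
  · subst h
    rw [Pool.Agent.H87.HK.yc_w0]
    have h1 := sum_log K x hx
    have h2 : ((w₀ : InfinitePlace K).mult : ℝ) +
        ∑ v : {w : InfinitePlace K // w ≠ w₀}, (v.1.mult : ℝ) = Module.finrank ℚ K := by
      rw [← sum_mult_eq (K := K), Nat.cast_sum, Fintype.sum_eq_add_sum_subtype_ne _ w₀]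
    rw [Fintype.sum_eq_add_sum_subtype_ne _ w₀] at h1
    have h3 : ∑ w, zl K x w =
        ∑ w : {w : InfinitePlace K // w ≠ w₀}, (w.1.mult : ℝ) * Real.log (w.1 x) -
        (∑ w : {w : InfinitePlace K // w ≠ w₀}, (w.1.mult : ℝ)) * (N / Module.finrank ℚ K) := by
      rw [Finset.sum_mul, ← Finset.sum_sub_distrib]
      refine Finset.sum_congr rfl fun w _ => ?_
      unfold zl
      rw [← hN]
      ring
    rw [h3]
    have h4 : ∑ w : {w : InfinitePlace K // w ≠ w₀}, (w.1.mult : ℝ) * Real.log (w.1 x) =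
        N - (w₀ : InfinitePlace K).mult * Real.log ((w₀ : InfinitePlace K) x) := by
      rw [hN, ← h1]; ring
    have h5 : ∑ v : {w : InfinitePlace K // w ≠ w₀}, (v.1.mult : ℝ) =
        Module.finrank ℚ K - (w₀ : InfinitePlace K).mult := by
      rw [← h2]; ring
    rw [h4, h5]
    field_simp
    ring
  · rw [Pool.Agent.H87.HK.yc_ne K _ _ ⟨v, h⟩]
    have hv := (Pool.Agent.H87.HK.mult_pos' K v).ne'
    unfold zl
    rw [← hN]
    simp only
    field_simp
    ring

theorem zl_mul (x y : K) (hx : x ≠ 0) (hy : y ≠ 0) : zl K (x * y) = zl K x + zl K y := by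
  funext w
  have h1 : w.1 x ≠ 0 := by simpa using hx
  have h2 : w.1 y ≠ 0 := by simpa using hy
  have h3 : (((|Algebra.norm ℚ x| : ℚ) : ℝ)) ≠ 0 := by
    have := (Algebra.norm_ne_zero_iff (R := ℚ) (x := x)).2 hx
    exact_mod_cast (abs_ne_zero.2 this)
  have h4 : (((|Algebra.norm ℚ y| : ℚ) : ℝ)) ≠ 0 := by
    have := (Algebra.norm_ne_zero_iff (R := ℚ) (x := y)).2 hy
    exact_mod_cast (abs_ne_zero.2 this)
  change zl K (x * y) w = zl K x w + zl K y w
  unfold zl
  rw [map_mul, map_mul, abs_mul, Rat.cast_mul, Real.log_mul h1 h2, Real.log_mul h3 h4]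
  ring

theorem zl_unit (u : (𝓞 K)ˣ) : zl K (u : K) = lu K u := by
  funext w
  have h1 : (((|Algebra.norm ℚ (u : K)| : ℚ) : ℝ)) = 1 := by
    have h2 := NumberField.Units.norm K u
    exact_mod_cast h2
  unfold zl lu
  rw [h1, Real.log_one, logEmbedding_component]
  simp

end

end Pool.Agent.H35.GLB
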